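import Pool.Agent.helper17.SG.SpecM

/-! Module M08 of project sg: (zero-one law for the stationary measure). -/

set_option autoImplicit false

open MeasureTheory Set Metric Filter Topology
open scoped ENNReal NNReal ComplexConjugate

namespace Pool.Agent.SG

/-- M08: zero-one law. -/
theorem M08 (hB01 : B01_stmt) (h1 : M01_stmt) (h7 : M07_stmt) : M08_stmt := by
  intro Γ _ A W ν hν B hB hinv
  obtain ⟨-, -, hnorm, -, -, -, -, hmeas, -, -⟩ := hB01 Γ A
  obtain ⟨-, -, hone, -, hE, hharm⟩ := h1 Γ A W ν hν.toStat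
  haveI := hν.prob
  by_contra hcon
  rw [not_or] at hcon
  obtain ⟨hB0, hBc⟩ := hcon
  have hBtop : ν B ≠ ⊤ := measure_ne_top _ _
  have hcircM : MeasurableSet circ := isClosed_sphere.measurableSet
  -- value of the stationarity on measurable sets
  have hval : ∀ E, MeasurableSet E → ν E = ∑ s ∈ W.S, W.μ s * ν (A.act s ⁻¹' E) := by
    intro E hEm
    have h2 := hharm E hEm 1
    simp only [one_mul, hone] at h2
    rw [h2]
    exact Finset.sum_congr rfl fun s _ => by rw [hE s E hEm]
  -- invariance of B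
  have hcap : ∀ s E, ν (A.act s ⁻¹' E ∩ B) = ν (A.act s ⁻¹' (E ∩ B)) := by
    intro s E
    apply measure_congr
    have hae : ∀ᵐ ξ ∂ν, ξ ∈ circ := by
      have := hν.supp
      rw [ae_iff]
      exact this
    filter_upwards [hae] with ξ hξ
    apply propext
    change (ξ ∈ A.act s ⁻¹' E ∩ B) ↔ (ξ ∈ A.act s ⁻¹' (E ∩ B))
    simp only [mem_inter_iff, mem_preimage]
    rw [hinv s ξ hξ]
  have hprob : IsProbabilityMeasure ((ν B)⁻¹ • ν.restrict B) := by
    constructor
    rw [Measure.smul_apply, Measure.restrict_apply MeasurableSet.univ, univ_inter, smul_eq_mul]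
    exact ENNReal.inv_mul_cancel hB0 hBtop
  have hsupp : ((ν B)⁻¹ • ν.restrict B) circᶜ = 0 := by
    rw [Measure.smul_apply, Measure.restrict_apply hcircM.compl, smul_eq_mul]
    rw [measure_mono_null inter_subset_left hν.supp, mul_zero]
  have hstat : ((ν B)⁻¹ • ν.restrict B) =
      ∑ s ∈ W.S, W.μ s • ((ν B)⁻¹ • ν.restrict B).map (A.act s) := by
    ext E hEm
    rw [Measure.finsetSum_apply]
    simp only [Measure.smul_apply, smul_eq_mul]
    rw [Measure.restrict_apply hEm, hval _ (hEm.inter hB), Finset.mul_sum]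
    apply Finset.sum_congr rfl
    intro s _
    rw [Measure.map_apply (hmeas s) hEm, Measure.smul_apply, smul_eq_mul,
      Measure.restrict_apply ((hmeas s) hEm), hcap s E]
    ring
  have heq := h7 Γ A W ν _ hν ⟨hprob, hsupp, hstat⟩
  apply hBc
  rw [heq, Measure.smul_apply, Measure.restrict_apply hB.compl, compl_inter_self, measure_empty,
    smul_eq_mul, mul_zero]

end Pool.Agent.SG
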